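import Pool.Agent.N384.MQ.Eqs2
import Pool.Agent.N384.MQ.Gen

/-!
# Split primes in the quadratic fields `ℚ(√n)` for almost all members of families of residues with small Fourier coefficients

From Mathlib: `ZMod.stdAddChar`: the additive character `j ↦ exp (2 π i j / q)` of the integers modulo `q`; `ZMod.val`: the
least residue.

Method: a family of residues modulo `q` with small Fourier coefficients has small exponential sums at all real
frequencies which are not close to integers. The passage from such exponential sums to sums over primes of functions of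
residues, for almost all members, is from the starting files (`Pool.Agent.R459.Eq`, `Pool.Agent.R459.Tw`). Examples: a lemma of Ajtai, Iwaniec,
Komlos, Pintz and Szemeredi on quotients by small primes, the Stepanov type lemma of Heath-Brown and Konyagin for
subgroups (library `H435R3.HBK`, `N825.FC`), and Weyl sums without losses (library `H373R2.NB`).
-/

set_option autoImplicit false

namespace Pool.Agent.Results.MP_aaa0df_nt.ResidueFamilies

open Finset Filter Pool.Agent.R459.Eq Pool.Agent.R459.Tw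

/-- The Fourier coefficients of the residues `y i`, `i ∈ s`, modulo `q` at the nonzero frequencies are at most
`η` times the number of the residues: `|∑ i ∈ s, e(h y_i / q)| ≤ η |s|` for all `h ≠ 0` modulo `q`. -/
def Flat {ι : Type} (q : ℕ) [NeZero q] (η : ℝ) (s : Finset ι) (y : ι → ZMod q) : Prop :=
  ∀ h : ZMod q, h ≠ 0 → ‖∑ i ∈ s, (ZMod.stdAddChar (h * y i) : ℂ)‖ ≤ η * s.card

open Classical in
/-- Almost all the integers `n = c₀ + κ y_i`, `i ∈ s` (with the least residues `0 ≤ y_i < q`), up to a proportion of at most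
`τ` of the `i`, have the property `P`. -/
def Almost {ι : Type} {q : ℕ} (s : Finset ι) (y : ι → ZMod q) (κ c₀ : ℤ) (τ : ℝ) (P : ℤ → Prop) : Prop :=
  ((s.filter (fun i => ¬ P (c₀ + κ * ((y i).val : ℕ)))).card : ℝ) ≤ τ * s.card

lemma almost_of {ι : Type} {q : ℕ} {s : Finset ι} {y : ι → ZMod q} {κ c₀ : ℤ} {τ : ℝ} {P Q : ℤ → Prop}
    (h : Pool.Agent.N384.MQ.AlmostF s y κ c₀ τ P) (hPQ : ∀ n, P n → Q n) : Almost s y κ c₀ τ Q := by
  have h1 := Pool.Agent.N384.MQ.AlmostF.mono h hPQ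
  unfold Pool.Agent.N384.MQ.AlmostF at h1
  unfold Almost
  convert h1

lemma fam_of {ι : Type} {q : ℕ} [NeZero q] {s : Finset ι} {y : ι → ZMod q} {Z : ℝ} (hZ : 0 < Z) (hZq : Z ≤ q)
    (h : Flat q (1 / (Z * (42 + 3 * Real.log q))) s y) :
    Pool.Agent.N384.MQ.Fam q s y (Z * (42 + 3 * Real.log q)) Z :=
  ⟨mul_pos hZ (by have := Real.log_natCast_nonneg q; linarith), h, hZq, le_rfl⟩

/-- `d` is `1` or the discriminant of a quadratic field. -/
def Fund (d : ℤ) : Prop := (d % 4 = 1 ∧ Squarefree d) ∨ ∃ m : ℤ, d = 4 * m ∧ (m % 4 = 2 ∨ m % 4 = 3) ∧ Squarefree m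

/-- The number of the primes `p < t` in `T` which split in the quadratic field with the discriminant `d`. -/
noncomputable def split (T : Set ℕ) (d : ℤ) (t : ℝ) : ℕ :=
  Set.ncard {p : ℕ | p.Prime ∧ p ∈ T ∧ (p : ℝ) < t ∧ ¬ ((p : ℤ) ∣ d) ∧ ∃ x : ℤ, (4 * (p : ℤ)) ∣ x ^ 2 - d}

/-- The number of the primes `p < t` in `T`. -/
noncomputable def total (T : Set ℕ) (t : ℝ) : ℕ := Set.ncard {p : ℕ | p.Prime ∧ p ∈ T ∧ (p : ℝ) < t}

lemma fund_mod {d : ℤ} (h : Fund d) : d % 4 = 1 ∨ d % 4 = 0 := by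
  rcases h with h | ⟨m, hm, _⟩
  · exact Or.inl h.1
  · right
    rw [hm]
    exact Int.mul_emod_right 4 m

/-- the primes with `(n / p) = 1` split -/
lemma splits {p : ℕ} (hp : p.Prime) (hp2 : p ≠ 2) {n d m : ℤ} (hd : Fund d) (h : 4 * n = d * m ^ 2) (hJ : jacobiSym n p = 1) :
    ¬ ((p : ℤ) ∣ d) ∧ ∃ x : ℤ, (4 * (p : ℤ)) ∣ x ^ 2 - d := by
  haveI : Fact p.Prime := ⟨hp⟩
  rw [← jacobiSym.legendreSym.to_jacobiSym] at hJ
  have hn0 : (n : ZMod p) ≠ 0 := by
    intro h0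
    rw [(legendreSym.eq_zero_iff p n).2 h0] at hJ
    norm_num at hJ
  obtain ⟨r, hr⟩ := (legendreSym.eq_one_iff p hn0).1 hJ
  have h2 : (2 : ZMod p) ≠ 0 := by
    intro h0
    have h1 : ((2 : ℕ) : ZMod p) = 0 := by exact_mod_cast h0
    rw [ZMod.natCast_eq_zero_iff] at h1
    exact hp2 ((Nat.prime_dvd_prime_iff_eq hp Nat.prime_two).1 h1)
  have h3 : (4 : ZMod p) * n = d * (m : ZMod p) ^ 2 := by
    have := congrArg (fun z : ℤ => (z : ZMod p)) h
    push_cast at this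
    exact this
  have h4 : (4 : ZMod p) = 2 * 2 := by norm_num
  have hm0 : (m : ZMod p) ≠ 0 := by
    intro h0
    rw [h0, h4] at h3
    have : (2 : ZMod p) * 2 * n ≠ 0 := mul_ne_zero (mul_ne_zero h2 h2) hn0
    apply this
    rw [h3]
    ring
  have hd0 : (d : ZMod p) ≠ 0 := by
    intro h0
    rw [h0, h4] at h3
    have : (2 : ZMod p) * 2 * n ≠ 0 := mul_ne_zero (mul_ne_zero h2 h2) hn0
    apply this
    rw [h3]
    ring
  obtain ⟨y, hy⟩ : ∃ y : ℤ, (y : ZMod p) = 2 * r / m := ⟨((2 * r / (m : ZMod p)).val : ℤ), by simp⟩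
  have hy2 : (y : ZMod p) ^ 2 = d := by
    rw [hy]
    field_simp
    linear_combination h3 - 4 * hr
  refine ⟨fun h5 => hd0 ((ZMod.intCast_zmod_eq_zero_iff_dvd d p).2 h5), ?_⟩
  have hpodd : (p : ℤ) % 2 = 1 := by
    have := hp.eq_two_or_odd
    omega
  obtain ⟨x, hx1, hx2⟩ : ∃ x : ℤ, (x : ZMod p) = y ∧ (x - d) % 2 = 0 := by
    rcases Int.emod_two_eq_zero_or_one (y - d) with h5 | h5
    · exact ⟨y, rfl, h5⟩
    · refine ⟨y + p, by simp, ?_⟩
      omega
  refine ⟨x, ?_⟩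
  have h6 : (p : ℤ) ∣ x ^ 2 - d := by
    rw [← ZMod.intCast_zmod_eq_zero_iff_dvd]
    push_cast
    rw [hx1, hy2, sub_self]
  have h7 : (4 : ℤ) ∣ x ^ 2 - d := by
    rcases fund_mod hd with h8 | h8
    · have h9 : x % 2 = 1 := by omega
      obtain ⟨a, ha⟩ : ∃ a, x = 2 * a + 1 := ⟨x / 2, by omega⟩
      obtain ⟨e, he⟩ : ∃ e, d = 4 * e + 1 := ⟨d / 4, by omega⟩
      exact ⟨a ^ 2 + a - e, by rw [ha, he]; ring⟩
    · have h9 : x % 2 = 0 := by omega
      obtain ⟨a, ha⟩ : ∃ a, x = 2 * a := ⟨x / 2, by omega⟩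
      obtain ⟨e, he⟩ : ∃ e, d = 4 * e := ⟨d / 4, by omega⟩
      exact ⟨a ^ 2 - e, by rw [ha, he]; ring⟩
  have hcop : IsCoprime (4 : ℤ) (p : ℤ) := by
    have h8 : Nat.Coprime 4 p := by
      have h9 : Nat.Coprime 2 p := (Nat.coprime_primes Nat.prime_two hp).2 (Ne.symm hp2)
      exact Nat.Coprime.mul_left h9 h9
    exact_mod_cast Nat.isCoprime_iff_coprime.2 h8
  exact hcop.mul_dvd h7 h6

/-- the primes with `(n / p) = -1` do not split -/
lemma not_splits {p : ℕ} (hp : p.Prime) (hp2 : p ≠ 2) {n d m : ℤ} (h : 4 * n = d * m ^ 2) (hJ : jacobiSym n p = -1) :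
    ¬ ∃ x : ℤ, (4 * (p : ℤ)) ∣ x ^ 2 - d := by
  haveI : Fact p.Prime := ⟨hp⟩
  rw [← jacobiSym.legendreSym.to_jacobiSym] at hJ
  rintro ⟨x, hx⟩
  apply (legendreSym.eq_neg_one_iff p).1 hJ
  have h2 : (2 : ZMod p) ≠ 0 := by
    intro h0
    have h1 : ((2 : ℕ) : ZMod p) = 0 := by exact_mod_cast h0
    rw [ZMod.natCast_eq_zero_iff] at h1
    exact hp2 ((Nat.prime_dvd_prime_iff_eq hp Nat.prime_two).1 h1)
  have h3 : (4 : ZMod p) * n = d * (m : ZMod p) ^ 2 := by
    have := congrArg (fun z : ℤ => (z : ZMod p)) h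
    push_cast at this
    exact this
  have h5 : (x : ZMod p) ^ 2 = d := by
    have h6 := (ZMod.intCast_zmod_eq_zero_iff_dvd (x ^ 2 - d) p).2 ((Dvd.intro_left 4 rfl).trans hx)
    push_cast at h6
    exact sub_eq_zero.1 h6
  refine ⟨(x : ZMod p) * m / 2, ?_⟩
  have h4 : (4 : ZMod p) = 2 * 2 := by norm_num
  have h6 : (2 : ZMod p) * 2 * n = (x : ZMod p) ^ 2 * (m : ZMod p) ^ 2 := by rw [← h4, h3, h5]
  field_simp
  linear_combination h6

lemma lt_iff (t : ℝ) (ht : 1 ≤ t) (p : ℕ) : (p : ℝ) < t ↔ p ≤ ⌈t⌉₊ - 1 := by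
  have h1 : 1 ≤ ⌈t⌉₊ := by
    rw [Nat.one_le_ceil_iff]
    linarith
  rw [← Nat.lt_ceil]
  omega

/-- **(1)** Let `0 < δ ≤ 1 / 2`. There is `W` such that for all `κ ≠ 0` and all sufficiently large `X` the following holds.
Let `y i`, `i ∈ s`, be any finite family of residues modulo any `q` whose Fourier coefficients at the nonzero frequencies are
at most `|s| / (Z (42 + 3 log q))`, where `0 < Z ≤ q`, and let `c₀` be any integer.
Let `T j` be ANY sequence of disjoint sets of primes.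

Almost all the integers `n = c₀ + κ y_i`, `i ∈ s`, up to a proportion of at most
`4 X ^ (- δ / 2)`, have for the discriminant `d` of `ℚ(√n)` (`4 n = d k²`), ALL real `t ≥ X + 1` with `t ^ W ≤ Z` and ALL `j`
with `(j + 1) ^ 2 ≤ t ^ (δ / 2)`: the number of the primes `p < t` in `T j` which split in the field with the discriminant
`d` differs from half of the number of the primes `p < t` in `T j` by at most `3 t ^ δ` times the square root of the number
of the primes `p < 2 t` in `T j` (or of `1`). For `t = (log |d|)² (log log |d|)²` this is the question.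

**(2)**, **(3)** Examples. All the Fourier coefficients at nonzero frequencies are at most `|s| / K` for the following families
of residues modulo primes `p` (all large primes in (2)), for ALL `K ≥ 1`:
* the quotients `j / r` of the integers `0 ≤ j < S` by the primes `r ≤ R`, if `K log ^ 4 p ≤ R < p` and `R ^ 2 ≤ S`; thus
  (1) with `Z = log ^ B p` applies to such explicit sets with only `log ^ (3 B + 20) p` members;
* the cosets of all subgroups of the multiplicative group of an order of at least `5 p ^ (3/8) K ^ 3`;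
* the residues `a b + g(a) + k(b)`, `a ∈ A`, `b ∈ B`, for arbitrary sets with `|A| |B| ≥ p K ^ 2` and arbitrary
  functions `g` and `k`;
* the values `f(n)`, `0 ≤ n < x`, of all integer polynomials of degree `d` whose leading coefficient is not divisible by
  `p`, if `p ≥ C K ^ C` and `x ^ d ≥ C K ^ C p`, where `C` depends on `d`.
In the last three examples `K`, and thus `Z`, can be a power of `p`. -/
theorem result :
    (∀ δ : ℝ, 0 < δ → δ ≤ 1 / 2 → ∃ W : ℕ, 1 ≤ W ∧ ∀ κ : ℤ, κ ≠ 0 → ∃ X₀ : ℕ, ∀ X : ℕ, X₀ ≤ X →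
      ∀ (ι : Type) (q : ℕ) [NeZero q] (s : Finset ι) (y : ι → ZMod q) (Z : ℝ), 0 < Z → Z ≤ q →
      Flat q (1 / (Z * (42 + 3 * Real.log q))) s y → ∀ c₀ : ℤ, ∀ T : ℕ → Set ℕ,
      (∀ p j j', p ∈ T j → p ∈ T j' → j = j') →
      Almost s y κ c₀ (4 * (X : ℝ) ^ (-(δ / 2))) (fun n => ∀ d k : ℤ, Fund d → k ≠ 0 → 4 * n = d * k ^ 2 →
        ∀ t : ℝ, (X : ℝ) + 1 ≤ t → t ^ W ≤ Z → ∀ j : ℕ, ((j : ℝ) + 1) ^ 2 ≤ t ^ (δ / 2) →
        |(split (T j) d t : ℝ) - 1 / 2 * total (T j) t| ≤ 3 * √(max 1 (total (T j) (2 * t) : ℝ)) * t ^ δ)) ∧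
    (∃ P₀ : ℕ, ∀ p : ℕ, P₀ ≤ p → ∀ [Fact p.Prime] (K : ℝ), 1 ≤ K →
      (∀ R S : ℕ, K * Real.log p ^ 4 ≤ R → R < p → R ^ 2 ≤ S →
        Flat p (1 / K) (((Icc 1 R).filter Nat.Prime) ×ˢ range S)
          (fun z => ((z.2 : ℕ) : ZMod p) * ((z.1 : ℕ) : ZMod p)⁻¹)) ∧
      (∀ (H : Subgroup (ZMod p)ˣ) (s : Finset (ZMod p)ˣ), (∀ u, u ∈ s ↔ u ∈ H) →
        5 * (p : ℝ) ^ (3 / 8 : ℝ) * K ^ 3 ≤ s.card → ∀ x : ZMod p, x ≠ 0 → Flat p (1 / K) s (fun u => x * (u : ZMod p))) ∧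
      (∀ (A B : Finset (ZMod p)) (g k : ZMod p → ZMod p), (p : ℝ) * K ^ 2 ≤ A.card * B.card →
        Flat p (1 / K) (A ×ˢ B) (fun z => z.1 * z.2 + g z.1 + k z.2))) ∧
    (∀ d : ℕ, 1 ≤ d → ∃ C : ℕ, ∀ p : ℕ, ∀ [Fact p.Prime] (f : Polynomial ℤ), f.natDegree = d →
      ¬ (p : ℤ) ∣ f.leadingCoeff → ∀ K : ℝ, 1 ≤ K → C * K ^ C ≤ p → ∀ x : ℕ, C * K ^ C * p ≤ (x : ℝ) ^ d →
      Flat p (1 / K) (range x) (fun n => ((f.eval (n : ℤ) : ℤ) : ZMod p))) := by
  classical
  refine ⟨?_, ?_, fun d hd => ?_⟩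
  · intro δ hδ hδ1
    obtain ⟨W, hW, H⟩ := Pool.Agent.N384.MQ.mq_twist_count δ hδ hδ1
    refine ⟨W, hW, fun κ hκ => ?_⟩
    obtain ⟨X₀, J⟩ := H κ hκ
    refine ⟨X₀ + 1, fun X hX ι q _ s y Z hZ hZq hfl c₀ T hT => ?_⟩
    have h1 := J X (by omega) ι q s y _ Z (fam_of hZ hZq hfl) c₀ T (fun _ => 1) (fun _ => Or.inl rfl) hT
    have h2 := J X (by omega) ι q s y _ Z (fam_of hZ hZq hfl) c₀ T (fun _ => -1) (fun _ => Or.inr rfl) hT
    have h3 := Pool.Agent.N384.MQ.AlmostF.and h1 h2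
    have e4 : 2 * (X : ℝ) ^ (-(δ / 2)) + 2 * (X : ℝ) ^ (-(δ / 2)) = 4 * (X : ℝ) ^ (-(δ / 2)) := by ring
    rw [e4] at h3
    refine almost_of h3 ?_
    intro n hn d m hd hm hdm t ht htW j hj
    have hX1 : (1 : ℝ) ≤ X := by exact_mod_cast (by omega : 1 ≤ X)
    have ht1 : (1 : ℝ) ≤ t := by linarith
    have ht0 : (0 : ℝ) < t := by linarith
    obtain ⟨x, hx⟩ : ∃ x, x = ⌈t⌉₊ - 1 := ⟨_, rfl⟩
    have hc1 : 1 ≤ ⌈t⌉₊ := by
      rw [Nat.one_le_ceil_iff]
      linarith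
    have hxt : (x : ℝ) < t := by
      rw [lt_iff t ht1, hx]
    have htx : t ≤ (x : ℝ) + 1 := by
      have h5 := Nat.le_ceil t
      have h6 : (⌈t⌉₊ : ℝ) = (x : ℝ) + 1 := by
        rw [hx]
        push_cast [Nat.cast_sub hc1]
        ring
      linarith
    have hXx : X ≤ x := by
      have h5 : (X : ℝ) ≤ x := by linarith
      exact_mod_cast h5
    have hxW : (x : ℝ) ^ W ≤ Z := (pow_le_pow_left₀ (Nat.cast_nonneg _) hxt.le W).trans htW
    have hx1 : (1 : ℝ) ≤ x := by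
      have : (X : ℝ) ≤ x := by exact_mod_cast hXx
      linarith
    have hjx : (j : ℝ) ≤ (x : ℝ) ^ (δ / 2) := by
      have h5 : t ≤ 2 * x := by linarith
      have h6 : t ^ (δ / 2) ≤ 2 * (x : ℝ) ^ (δ / 2) := by
        calc t ^ (δ / 2) ≤ (2 * x) ^ (δ / 2) := Real.rpow_le_rpow ht0.le h5 (by linarith)
          _ = 2 ^ (δ / 2) * (x : ℝ) ^ (δ / 2) := Real.mul_rpow (by norm_num) (by linarith)
          _ ≤ 2 ^ (1 : ℝ) * (x : ℝ) ^ (δ / 2) := by
              apply mul_le_mul_of_nonneg_right _ (by positivity)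
              exact Real.rpow_le_rpow_of_exponent_le (by norm_num) (by linarith)
          _ = _ := by rw [Real.rpow_one]
      have h7 : (0 : ℝ) ≤ j := Nat.cast_nonneg _
      nlinarith
    have hA := (hn.1 x hXx hxW j hjx)
    have hB := (hn.2 x hXx hxW j hjx)
    obtain ⟨V, hV⟩ : ∃ V : ℝ, V = √(max 1 (((pri (2 * x)).filter (fun p => p ≠ 2 ∧ p ∈ T j)).card : ℝ)) * (x : ℝ) ^ δ := ⟨_, rfl⟩
    obtain ⟨A, hAd⟩ : ∃ A : Finset ℕ, A = (pri x).filter (fun p => p ≠ 2 ∧ p ∈ T j ∧ jacobiSym n p = 1) := ⟨_, rfl⟩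
    obtain ⟨B, hBd⟩ : ∃ B : Finset ℕ, B = (pri x).filter (fun p => p ≠ 2 ∧ p ∈ T j ∧ jacobiSym n p = -1) := ⟨_, rfl⟩
    obtain ⟨Q, hQ⟩ : ∃ Q : Finset ℕ, Q = (pri x).filter (fun p => p ≠ 2 ∧ p ∈ T j) := ⟨_, rfl⟩
    obtain ⟨Q', hQ'⟩ : ∃ Q' : Finset ℕ, Q' = (pri x).filter (fun p => p ∈ T j) := ⟨_, rfl⟩
    obtain ⟨S, hS⟩ : ∃ S : Finset ℕ, S = (pri x).filter (fun p => p ∈ T j ∧ ¬ ((p : ℤ) ∣ d) ∧ ∃ x : ℤ, (4 * (p : ℤ)) ∣ x ^ 2 - d) := ⟨_, rfl⟩
    have eS : split (T j) d t = S.card := by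
      unfold split
      rw [← Set.ncard_coe_finset]
      congr 1
      ext p
      rw [hS]
      simp only [Set.mem_setOf_eq, coe_filter, mem_pri]
      rw [lt_iff t ht1 p, ← hx]
      tauto
    have eM : total (T j) t = Q'.card := by
      unfold total
      rw [← Set.ncard_coe_finset]
      congr 1
      ext p
      rw [hQ']
      simp only [Set.mem_setOf_eq, coe_filter, mem_pri]
      rw [lt_iff t ht1 p, ← hx]
      tauto
    have hVt : V ≤ √(max 1 (total (T j) (2 * t) : ℝ)) * t ^ δ := by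
      rw [hV]
      apply mul_le_mul _ (Real.rpow_le_rpow (by linarith) hxt.le hδ.le) (by positivity) (Real.sqrt_nonneg _)
      apply Real.sqrt_le_sqrt
      apply max_le_max le_rfl
      have h5 : ((pri (2 * x)).filter (fun p => p ≠ 2 ∧ p ∈ T j)).card ≤ total (T j) (2 * t) := by
        unfold total
        rw [← Set.ncard_coe_finset]
        apply Set.ncard_le_ncard
        · intro p hp
          rw [coe_filter, Set.mem_setOf_eq, mem_pri] at hp
          refine ⟨hp.1.2, hp.2.2, ?_⟩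
          have h6 : (p : ℝ) ≤ 2 * x := by exact_mod_cast hp.1.1
          linarith
        · apply Set.Finite.subset (Set.finite_Iio (⌈2 * t⌉₊))
          intro p hp
          exact Nat.lt_ceil.2 hp.2.2
      exact_mod_cast h5
    have hV1 : 1 ≤ V := by
      rw [hV]
      apply one_le_mul_of_one_le_of_one_le
      · rw [Real.one_le_sqrt]
        exact le_max_left _ _
      · exact Real.one_le_rpow hx1 hδ.le
    have hAS : A.card ≤ S.card := by
      apply card_le_card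
      intro p hp
      rw [hAd, mem_filter] at hp
      rw [hS, mem_filter]
      exact ⟨hp.1, hp.2.2.1, splits (mem_pri.1 hp.1).2 hp.2.1 hd hdm hp.2.2.2⟩
    have hSB : S.card + B.card ≤ Q'.card := by
      have hdis : Disjoint S B := by
        rw [disjoint_left]
        intro p hp hp'
        rw [hS, mem_filter] at hp
        rw [hBd, mem_filter] at hp'
        exact not_splits (mem_pri.1 hp.1).2 hp'.2.1 hdm hp'.2.2.2 hp.2.2.2
      rw [← card_union_of_disjoint hdis]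
      apply card_le_card
      intro p hp
      rw [mem_union, hS, hBd, mem_filter, mem_filter] at hp
      rw [hQ', mem_filter]
      rcases hp with hp | hp
      · exact ⟨hp.1, hp.2.1⟩
      · exact ⟨hp.1, hp.2.2.1⟩
    have hMM : Q'.card ≤ Q.card + 1 := by
      have h5 : Q' ⊆ Q ∪ {2} := by
        intro p hp
        rw [hQ', mem_filter] at hp
        rw [mem_union, hQ, mem_filter, mem_singleton]
        by_cases h6 : p = 2
        · exact Or.inr h6
        · exact Or.inl ⟨hp.1, h6, hp.2⟩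
      refine (card_le_card h5).trans ((card_union_le _ _).trans ?_)
      rw [card_singleton]
    have hMM2 : Q.card ≤ Q'.card := by
      apply card_le_card
      intro p hp
      rw [hQ, mem_filter] at hp
      rw [hQ', mem_filter]
      exact ⟨hp.1, hp.2.2⟩
    have r1 : (A.card : ℝ) ≤ S.card := by exact_mod_cast hAS
    have r2 : (S.card : ℝ) + B.card ≤ Q'.card := by exact_mod_cast hSB
    have r3 : (Q'.card : ℝ) ≤ Q.card + 1 := by exact_mod_cast hMM
    have r4 : (Q.card : ℝ) ≤ Q'.card := by exact_mod_cast hMM2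
    have hA' : |(A.card : ℝ) - 1 / 2 * Q.card| ≤ 2 * V := by
      rw [hAd, hQ, hV, ← mul_assoc]
      exact hA
    have hB' : |(B.card : ℝ) - 1 / 2 * Q.card| ≤ 2 * V := by
      rw [hBd, hQ, hV, ← mul_assoc]
      exact hB
    rw [eS, eM, mul_assoc]
    rw [abs_le] at hA' hB' ⊢
    constructor <;> linarith [hA'.1, hA'.2, hB'.1, hB'.2]
  · obtain ⟨P₀, h0⟩ := Pool.Agent.N384.MQ.flatK_quot
    exact ⟨P₀, fun p hp _ K hK => ⟨fun R S => h0 p hp K hK R S,
      fun H s hs hc x hx => Pool.Agent.N384.MQ.flatK_coset p H s hs K hK hc x hx,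
      fun A B g k hAB => Pool.Agent.N384.MQ.flatK_prod p A B g k K hK hAB⟩⟩
  · exact Pool.Agent.N384.MQ.flatK_poly d hd

end Pool.Agent.Results.MP_aaa0df_nt.ResidueFamilies
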